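import Mathlib
import Pool.Agent.P.MP_951455_co.Deep
import Pool.Agent.P.MP_951455_co.VariantNoSmallFactor

set_option autoImplicit false

namespace Pool.Agent.Results.MP_951455_co.PolyGap

open Pool.Agent.P.MP_951455_co

theorem result : ∀ t c : ℕ, 1 ≤ c → ∃ b₀ : ℕ, ∀ b : ℕ, b₀ ≤ b →
    ∃ n k : ℕ, 1 ≤ n ∧ 1 ≤ k ∧ 1 ≤ b ∧ n ≤ k * b ∧
    ∃ G : SimpleGraph (Fin n), G.IsAcyclic ∧ (∀ v, {u | G.Reachable v u}.ncard ≤ b) ∧
      (∃ p : Fin n → ℝ × ℝ, Function.Injective p ∧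
        ∃ γ : Fin n → Fin n → unitInterval → ℝ × ℝ,
          (∀ u v, G.Adj u v → Continuous (γ u v) ∧ Function.Injective (γ u v) ∧
              γ u v 0 = p u ∧ γ u v 1 = p v) ∧
          (∀ u v w x, G.Adj u v → γ u v x = p w → (w = u ∧ x = 0) ∨ (w = v ∧ x = 1)) ∧
          (∀ u v u' v' x y, G.Adj u v → G.Adj u' v' → s(u, v) ≠ s(u', v') →
              γ u v x = γ u' v' y → ∃ w, γ u v x = p w)) ∧
      (∃ m : ℕ, ∃ T : SimpleGraph (Fin m), T.IsTree ∧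
        ∃ B : Fin m → Finset (Fin n),
          (∀ v, ∃ i, v ∈ B i) ∧
          (∀ u v, G.Adj u v → ∃ i, u ∈ B i ∧ v ∈ B i) ∧
          (∀ v, (T.induce {i | v ∈ B i}).Connected) ∧
          (∀ i, (B i).card ≤ k + 1)) ∧
      (∃ f : Fin n → ℕ,
        (∀ u v, G.Adj u v → f u ≤ f v + 1 ∧ f v ≤ f u + 1) ∧
        (∀ i : ℕ, (Finset.univ.filter (fun v => f v = i)).card ≤ b)) ∧
      ∀ m : ℕ, (m : ℝ) ≤ (b : ℝ) ^ (1 + 1 / (200 * ((t : ℝ) + 1) * Real.logb 2 (2 * c))) →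
        ∀ H : SimpleGraph (Fin m),
        (∃ r : ℕ, ∃ T : SimpleGraph (Fin r), T.IsTree ∧
          ∃ B : Fin r → Finset (Fin m),
            (∀ v, ∃ i, v ∈ B i) ∧
            (∀ u v, H.Adj u v → ∃ i, u ∈ B i ∧ v ∈ B i) ∧
            (∀ v, (T.induce {i | v ∈ B i}).Connected) ∧
            (∀ i, (B i).card ≤ t + 1)) →
        ∀ l : ℕ, ¬ ∃ φ : Fin n → Fin m × Fin l × Fin c, Function.Injective φ ∧
          ∀ u v, G.Adj u v →
            ((φ u).1 = (φ v).1 ∨ H.Adj (φ u).1 (φ v).1) ∧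
            ((φ u).2.1 = (φ v).2.1 ∨ (SimpleGraph.pathGraph l).Adj (φ u).2.1 (φ v).2.1) := by
  classical
  intro t c hc
  obtain ⟨D, hDdef⟩ : ∃ D, D = (t + 1) * 3 := ⟨_, rfl⟩
  have hD : 0 < D := by omega
  obtain ⟨d, hdef⟩ : ∃ d, d = D * c := ⟨_, rfl⟩
  have hd : 0 < d := by rw [hdef]; positivity
  obtain ⟨g, hgdef⟩ : ∃ g, g = (2 * c) ^ (64 * D) := ⟨_, rfl⟩
  have hg : 0 < g := by rw [hgdef]; positivity
  have hE1 : 1 < 4 * d * g := by nlinarith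
  have hE2 : 4 * d * g ≤ (2 * c) ^ (200 * (t + 1)) := by
    have h1 : 2 * D ≤ 2 ^ (t + 3) := by have := @Nat.lt_two_pow_self t; rw [pow_add]; omega
    have h2 : 2 ^ (t + 3) ≤ (2 * c) ^ (8 * t + 7) :=
      (Nat.pow_le_pow_left (by omega) _).trans (Nat.pow_le_pow_right (by omega) (by omega))
    rw [show 200 * (t + 1) = 8 * t + 7 + 1 + 64 * D by omega, pow_add, pow_succ, hgdef, hdef]
    exact Nat.mul_le_mul_right _ (by nlinarith)
  refine ⟨(4 * d * g) ^ (32 * D * c * (4 * d * g) ^ 2 + 1), fun b hb => ?_⟩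
  have hb1 : 1 ≤ b := le_trans (Nat.one_le_pow _ _ (by omega)) hb
  have hlog := Nat.le_log_of_pow_le hE1 hb
  obtain ⟨r, hr⟩ : ∃ r, Nat.log (4 * d * g) b = r + 1 := ⟨Nat.log (4 * d * g) b - 1, by omega⟩
  have hlo : (4 * d * g) ^ (r + 1) ≤ b := hr ▸ Nat.pow_log_le_self _ (by omega)
  have hhi : b < (4 * d * g) ^ (r + 2) := by
    have := Nat.lt_pow_succ_log_self hE1 b
    rwa [hr] at this
  have hK : (2 * c) ^ (64 * D * r) = g ^ r := by rw [hgdef, pow_mul]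
  obtain ⟨n, e, he, h1, h2⟩ := exists_forest (2 * c) d (r + 1) (64 * D * r)
  have hn : 0 < n := by
    obtain ⟨u, -⟩ := h2 (64 * D * r :: List.replicate r 0) (mem_pats.2 (by simp)) []
      (nil_mem_paths _ _ _)
    exact u.pos
  have hhead : ∀ u v, (lgraph e).Adj u v → (e u).headI = (e v).headI := fun u v huv => by
    obtain ⟨a, -, p, -, hu⟩ := h1 u
    obtain ⟨a', -, p', -, hv⟩ := h1 v
    rw [hu, hv]
    rcases huv with ⟨x, h⟩ | ⟨x, h⟩
    · rw [hu, hv] at h; exact (List.cons.inj h).1.symm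
    · rw [hu, hv] at h; exact (List.cons.inj h).1
  have hlay : ∀ i, (Finset.univ.filter fun v => (e v).headI = i).card ≤ b := fun i => by
    refine (layer_le (by omega) hd he h1 i).trans (le_trans ?_ hlo)
    rw [hK, mul_pow (4 * d)]
    exact Nat.mul_le_mul_left _ (Nat.pow_le_pow_right hg r.le_succ)
  refine ⟨n, n, hn, hn, hb1, Nat.le_mul_of_pos_right _ hb1, lgraph e, lgraph_acyclic he,
    fun v => ?_, ?_, ?_, ⟨fun v => (e v).headI, fun u v huv => by simp [hhead u v huv], hlay⟩, ?_⟩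
  · refine le_trans (Set.ncard_le_ncard fun u hu => ?_)
      ((Set.ncard_coe_finset _).le.trans (hlay (e v).headI))
    obtain ⟨w⟩ := hu
    simp only [Finset.coe_filter, Finset.mem_univ, true_and, Set.mem_ofPred_eq]
    induction w with
    | nil => rfl
    | cons h _ ih => rw [ih, hhead _ _ h]
  · obtain ⟨p, hp, γ, a1, a2, a3⟩ := planar_of_noncross _ (lgraph_noncross he)
    refine ⟨p, hp, γ, a1, a2, fun u v u' v' x y huv huv' hne => ?_⟩
    refine a3 u v u' v' x y huv huv' (fun h => hne ?_)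
    rw [Prod.mk.injEq] at h
    rw [h.1, h.2]
  · refine ⟨1, ⊥, SimpleGraph.IsTree.of_subsingleton, fun _ => Finset.univ, ?_, ?_, ?_, ?_⟩
    · intro v; exact ⟨0, Finset.mem_univ _⟩
    · intro u v _; exact ⟨0, Finset.mem_univ _, Finset.mem_univ _⟩
    · intro v
      have : Nonempty {i : Fin 1 | v ∈ (Finset.univ : Finset (Fin n))} := ⟨⟨0, by simp⟩⟩
      exact SimpleGraph.IsTree.of_subsingleton.connected
    · intro i; simp
  · rintro m hm H ⟨s, T, hT, B, -, hE, hC, hw⟩ l ⟨φ, hφ, hadj⟩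
    have hle := deep_embedding (t := t) (r := r + 1) (K := 64 * D * r) hc hn
      (by rw [← hDdef, ← hdef]; exact h2) H T hT B hE hC hw φ hφ hadj
    rw [← hDdef, ← hdef, hK] at hle
    have hm' := rpow_bound (m := m) (by omega) (by omega) hE2 hhi.le (by push_cast; exact hm)
    have := final_count hD hd hg hm' (le_trans (Nat.mul_le_mul_left _ (pow_le_mc _ _)) hle)
    omega

/-- the negated form of the question is the case `t = 3`, `m ≤ b` -/
theorem negated_form : ∀ c : ℕ, ∃ n k b : ℕ, 1 ≤ n ∧ 1 ≤ k ∧ 1 ≤ b ∧ n ≤ k * b ∧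
    ∃ G : SimpleGraph (Fin n),
      (∃ p : Fin n → ℝ × ℝ, Function.Injective p ∧
        ∃ γ : Fin n → Fin n → unitInterval → ℝ × ℝ,
          (∀ u v, G.Adj u v → Continuous (γ u v) ∧ Function.Injective (γ u v) ∧
              γ u v 0 = p u ∧ γ u v 1 = p v) ∧
          (∀ u v w x, G.Adj u v → γ u v x = p w → (w = u ∧ x = 0) ∨ (w = v ∧ x = 1)) ∧
          (∀ u v u' v' x y, G.Adj u v → G.Adj u' v' → s(u, v) ≠ s(u', v') →
              γ u v x = γ u' v' y → ∃ w, γ u v x = p w)) ∧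
      (∃ m : ℕ, ∃ T : SimpleGraph (Fin m), T.IsTree ∧
        ∃ B : Fin m → Finset (Fin n),
          (∀ v, ∃ i, v ∈ B i) ∧
          (∀ u v, G.Adj u v → ∃ i, u ∈ B i ∧ v ∈ B i) ∧
          (∀ v, (T.induce {i | v ∈ B i}).Connected) ∧
          (∀ i, (B i).card ≤ k + 1)) ∧
      (∃ f : Fin n → ℕ,
        (∀ u v, G.Adj u v → f u ≤ f v + 1 ∧ f v ≤ f u + 1) ∧
        (∀ i : ℕ, (Finset.univ.filter (fun v => f v = i)).card ≤ b)) ∧
      ∀ m : ℕ, m ≤ b → ∀ H : SimpleGraph (Fin m),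
        (∃ r : ℕ, ∃ T : SimpleGraph (Fin r), T.IsTree ∧
          ∃ B : Fin r → Finset (Fin m),
            (∀ v, ∃ i, v ∈ B i) ∧
            (∀ u v, H.Adj u v → ∃ i, u ∈ B i ∧ v ∈ B i) ∧
            (∀ v, (T.induce {i | v ∈ B i}).Connected) ∧
            (∀ i, (B i).card ≤ 3 + 1)) →
        ∀ l : ℕ, ¬ ∃ φ : Fin n → Fin m × Fin l × Fin c, Function.Injective φ ∧
          ∀ u v, G.Adj u v →
            ((φ u).1 = (φ v).1 ∨ H.Adj (φ u).1 (φ v).1) ∧
            ((φ u).2.1 = (φ v).2.1 ∨ (SimpleGraph.pathGraph l).Adj (φ u).2.1 (φ v).2.1) := by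
  intro c
  obtain ⟨b, hb⟩ := result 3 (max c 1) (le_max_right _ _)
  obtain ⟨n, k, hn, hk, hb1, hnk, G, -, -, h1, h2, h3, h4⟩ := hb b le_rfl
  refine ⟨n, k, b, hn, hk, hb1, hnk, G, h1, h2, h3, fun m hm H hH l => ?_⟩
  rintro ⟨φ, hφ, hadj⟩
  have hc : 1 ≤ c := (φ ⟨0, hn⟩).2.2.pos
  rw [max_eq_left hc] at h4
  refine h4 m ?_ H hH l ⟨φ, hφ, hadj⟩
  have hb' : (1 : ℝ) ≤ b := by exact_mod_cast hb1
  have hL : 0 < Real.logb 2 (2 * c) :=
    Real.logb_pos one_lt_two (by exact_mod_cast (by omega : 1 < 2 * c))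
  calc (m : ℝ) ≤ b := by exact_mod_cast hm
    _ = (b : ℝ) ^ (1 : ℝ) := (Real.rpow_one _).symm
    _ ≤ _ := Real.rpow_le_rpow_of_exponent_le hb' (le_add_of_nonneg_right (by positivity))

end Pool.Agent.Results.MP_951455_co.PolyGap
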